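import Pool.Agent.N637.SLK.Den
import Pool.Agent.N637.SLX.Stm4

/-!
# Project SLK (helper637): the arithmetic parts

`E_{a,c} : y² = x (x - a²) (x + c² - a²)` (isomorphic to `y² = x (x + a²) (x + c²)`), `a` odd, `c = 4 mod 8`, `a` and `c`
coprime; the twist by `m` has the roots `0`, `a² m`, `-(c² - a²) m`. `m < 0` is squarefree and such that the twist has
no split multiplicative reduction and `m` is prime to the odd bad primes.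
-/

set_option autoImplicit false
set_option linter.unusedVariables false

open scoped Classical

namespace Pool.Agent.N637.SLK

open Finset Filter Topology NumberField
open Pool.Agent.N916.GB (Po Vt sy)
open Pool.Agent.Y703.CQ (nr)
open Pool.Agent.N637.SLX (NS pdr dY IsLk Bf Dn S_HR)
open Pool.Agent.TH841.SH (SelG LocC IsR)

/-- the curve -/
structure Cv (a c : ℤ) : Prop where
  ha : a % 2 = 1
  hc : c % 8 = 4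
  co : IsCoprime a c

/-- `m` is admissible for the curve -/
structure Lm (a c m : ℤ) : Prop where
  neg : m < 0
  sqf : Squarefree m
  ac : ∀ p : ℕ, p.Prime → p ≠ 2 → (p : ℤ) ∣ a * c → jacobiSym m p = -1
  bb : ∀ p : ℕ, p.Prime → (p : ℤ) ∣ c ^ 2 - a ^ 2 → jacobiSym (-m) p = -1

/-- `S` is the set of the odd prime divisors of `m`, `(t, r, s)` is the type of the discriminant -/
structure TyG (t : Bool) (r s : ZMod 2) (S : Finset ℕ) (m : ℤ) : Prop where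
  po : ∀ p ∈ S, Po p
  neg : m < 0
  sqf : Squarefree m
  ty : (t = false ∧ s = 0 ∧ m = -(((∏ p ∈ S, p : ℕ)) : ℤ) ∧ m % 4 = 1) ∨
    (t = true ∧ r = 0 ∧ s = 1 ∧ m = -(((∏ p ∈ S, p : ℕ)) : ℤ) ∧ m % 4 = 3) ∨
    (t = true ∧ r = 1 ∧ s = 1 ∧ m = -(2 * (((∏ p ∈ S, p : ℕ)) : ℤ)) ∧ (∏ p ∈ S, p) % 4 = 1) ∨
    (t = true ∧ r = 1 ∧ s = 0 ∧ m = -(2 * (((∏ p ∈ S, p : ℕ)) : ℤ)) ∧ (∏ p ∈ S, p) % 4 = 3)

/-- the labels of the curve: the primes that divide `c² - a²` to an odd power -/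
noncomputable def lb (a c : ℤ) : Finset ℕ :=
  (c ^ 2 - a ^ 2).natAbs.primeFactors.filter fun p => Odd (padicValInt p (c ^ 2 - a ^ 2))

/-- the first coordinate -/
noncomputable def dXG (t : Bool) (r s : ZMod 2) (S Λ : Finset ℕ)
    (x y : {x : ℕ // x ∈ Vt t S} → ZMod 2) : ℤ :=
  (∏ p : {x : ℕ // x ∈ Vt t S}, if x p = 1 then pdr r s p.1 else 1) *
    ∏ l ∈ Λ, if ∑ q, nr l q.1 * y q = 1 then (if l % 4 = 1 then (l : ℤ) else -l) else 1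

/-- SLK-NEC: the Selmer classes satisfy the linear systems. -/
def S_NEC : Prop := ∀ (t : Bool) (r s : ZMod 2) (S : Finset ℕ) (m a c : ℤ), TyG t r s S m → Cv a c →
  Lm a c m → ∀ z ∈ SelG 0 (a ^ 2 * m) (-(c ^ 2 - a ^ 2) * m),
  ∃ x y : {x : ℕ // x ∈ Vt t S} → ZMod 2, IsLk (NS t r s S) y ∧
    RwF (NS t r s S) (lb a c) (fun l p => nr l p.1) x y ∧
    z = (dXG t r s S (lb a c) x y, dY t S y)

/-- SLK-SUF: the solutions of the linear systems are Selmer classes. -/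
def S_SUF : Prop := ∀ (t : Bool) (r s : ZMod 2) (S : Finset ℕ) (m a c : ℤ), TyG t r s S m → Cv a c →
  Lm a c m → ∀ x y : {x : ℕ // x ∈ Vt t S} → ZMod 2, IsLk (NS t r s S) y →
    RwF (NS t r s S) (lb a c) (fun l p => nr l p.1) x y →
    (dXG t r s S (lb a c) x y, dY t S y) ∈ SelG 0 (a ^ 2 * m) (-(c ^ 2 - a ^ 2) * m)

/-- SLK-INJ: the coordinates determine the vectors. -/
def S_INJ : Prop := ∀ (t : Bool) (r s : ZMod 2) (S : Finset ℕ) (m a c : ℤ), TyG t r s S m → Cv a c →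
  Lm a c m → ∀ x y x' y' : {x : ℕ // x ∈ Vt t S} → ZMod 2,
    dXG t r s S (lb a c) x y = dXG t r s S (lb a c) x' y' → dY t S y = dY t S y' → x = x' ∧ y = y'

/-- SLK-LT: torsion classes and additivity. -/
def S_LT : Prop := ∀ (K : Type) [Field K] [CharZero K] (m a c : ℤ), m ≠ 0 → Cv a c →
  (∃ x y : K, y ≠ 0 ∧ y ^ 2 = x * (x - a ^ 2 * m) * (x + (c ^ 2 - a ^ 2) * m) ∧ IsSquare x ∧
    IsSquare (x - a ^ 2 * m) ∧ IsSquare (x + (c ^ 2 - a ^ 2) * m)) →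
  (∀ d1 d2 : ℤ, d1 ≠ 0 → d2 ≠ 0 →
    (IsSquare (d2 : K) ∧ (IsSquare (d1 : K) ∨ IsSquare ((d1 : K) * m))) ∨
      (IsSquare ((d2 : K) * (-m)) ∧ (IsSquare ((d1 : K) * (-(c ^ 2 - a ^ 2))) ∨
        IsSquare ((d1 : K) * (-(c ^ 2 - a ^ 2)) * m))) →
    LocC K 0 (a ^ 2 * m) (-(c ^ 2 - a ^ 2) * m) d1 d2) ∧
  ∀ d1 d2 d3 d4 : ℤ, d1 ≠ 0 → d2 ≠ 0 → d3 ≠ 0 → d4 ≠ 0 →
    LocC K 0 (a ^ 2 * m) (-(c ^ 2 - a ^ 2) * m) d1 d2 →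
    LocC K 0 (a ^ 2 * m) (-(c ^ 2 - a ^ 2) * m) d3 d4 →
    LocC K 0 (a ^ 2 * m) (-(c ^ 2 - a ^ 2) * m) (d1 * d3) (d2 * d4)

/-- SLK-LG: the odd places not dividing `m`, solvability. -/
def S_LG : Prop := ∀ (m a c : ℤ), Cv a c → Lm a c m → ∀ (p : ℕ) [Fact p.Prime], p ≠ 2 →
  ¬ (p : ℤ) ∣ m → ∀ d1 d2 : ℤ, Squarefree d1 → Squarefree d2 → ¬ (p : ℤ) ∣ d2 →
  ((p : ℤ) ∣ d1 ↔ (Odd (padicValInt p (c ^ 2 - a ^ 2)) ∧ jacobiSym d2 p = -1)) →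
  LocC ℚ_[p] 0 (a ^ 2 * m) (-(c ^ 2 - a ^ 2) * m) d1 d2

/-- SLK-NG: the odd places not dividing `m`, necessity. -/
def S_NG : Prop := ∀ (m a c : ℤ), Cv a c → Lm a c m → ∀ (p : ℕ) [Fact p.Prime], p ≠ 2 →
  ¬ (p : ℤ) ∣ m → ∀ d1 d2 : ℤ, Squarefree d1 → Squarefree d2 →
  LocC ℚ_[p] 0 (a ^ 2 * m) (-(c ^ 2 - a ^ 2) * m) d1 d2 → ¬ (p : ℤ) ∣ d2 ∧
  ((p : ℤ) ∣ d1 ↔ (Odd (padicValInt p (c ^ 2 - a ^ 2)) ∧ jacobiSym d2 p = -1))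

/-- SLK-NM: the odd places dividing `m`, necessity. -/
def S_NM : Prop := ∀ (m a c : ℤ), Cv a c → Lm a c m → ∀ (p : ℕ) [Fact p.Prime], p ≠ 2 →
  (p : ℤ) ∣ m → ∀ d1 d2 : ℤ, Squarefree d1 → Squarefree d2 →
  LocC ℚ_[p] 0 (a ^ 2 * m) (-(c ^ 2 - a ^ 2) * m) d1 d2 →
  (IsSquare (d2 : ℚ_[p]) ∧ (IsSquare (d1 : ℚ_[p]) ∨ IsSquare ((d1 : ℚ_[p]) * m))) ∨
    (IsSquare ((d2 : ℚ_[p]) * (-m)) ∧ (IsSquare ((d1 : ℚ_[p]) * (-(c ^ 2 - a ^ 2))) ∨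
      IsSquare ((d1 : ℚ_[p]) * (-(c ^ 2 - a ^ 2)) * m)))

/-- SLK-L2: the place `2`, solvability. -/
def S_L2 : Prop := ∀ (m a c : ℤ), Cv a c → Squarefree m → ∀ d1 d2 : ℤ, Squarefree d1 →
  Squarefree d2 →
  (m % 4 = 1 → d1 % 4 = 1 → d2 % 2 = 1 →
    LocC ℚ_[2] 0 (a ^ 2 * m) (-(c ^ 2 - a ^ 2) * m) d1 d2) ∧
  (m % 4 ≠ 1 → (IsSquare (d1 : ℚ_[2]) ∨ IsSquare ((d1 : ℚ_[2]) * m)) →
    (∃ x y : ℚ_[2], (d2 : ℚ_[2]) = x ^ 2 - m * y ^ 2) →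
    LocC ℚ_[2] 0 (a ^ 2 * m) (-(c ^ 2 - a ^ 2) * m) d1 d2)

/-- SLK-N2: the place `2`, necessity. -/
def S_N2 : Prop := ∀ (m a c : ℤ), Cv a c → Squarefree m → ∀ d1 d2 : ℤ, Squarefree d1 →
  Squarefree d2 → LocC ℚ_[2] 0 (a ^ 2 * m) (-(c ^ 2 - a ^ 2) * m) d1 d2 →
  (m % 4 = 1 → d1 % 4 = 1 ∧ d2 % 2 = 1) ∧
  (m % 4 ≠ 1 → IsSquare (d1 : ℚ_[2]) ∨ IsSquare ((d1 : ℚ_[2]) * m))

/-- SLK-LR: the real place. -/
def S_LR : Prop := ∀ (m a c : ℤ), Cv a c → m < 0 → ∀ d1 d2 : ℤ, Squarefree d1 → Squarefree d2 →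
  (LocC ℝ 0 (a ^ 2 * m) (-(c ^ 2 - a ^ 2) * m) d1 d2 ↔ 0 < d2)

/-- SLK-RK4: the theorem of Rédei and Reichardt. -/
def S_RK4 : Prop := ∀ (t : Bool) (r s : ZMod 2) (S : Finset ℕ) (m : ℤ), TyG t r s S m → m ≠ -1 →
  ∀ (K : Type) [Field K] [NumberField K], Module.finrank ℚ K = 2 → (∃ z : K, z ^ 2 = (m : K)) →
  Nat.card {c : ClassGroup (𝓞 K) // c ^ 4 = 1} * 2 =
    Nat.card {c : ClassGroup (𝓞 K) // c ^ 2 = 1} *
      Nat.card {y : {x : ℕ // x ∈ Vt t S} → ZMod 2 // IsLk (NS t r s S) y}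

/-- the alternating form on the divisors: `∑_l (χ_l(d) χ_l(d') + χ_l((d, d')))` -/
noncomputable def BL (Λ : Finset ℕ) (d d' : ℕ) : ZMod 2 :=
  ∑ l ∈ Λ, (nr l d * nr l d' + nr l (d.gcd d'))

/-- SLK-HIL: the translation of the left kernel and of the form. -/
def S_HIL : Prop := ∀ (t : Bool) (r s : ZMod 2) (S : Finset ℕ) (m : ℤ) (n : ℕ), TyG t r s S m →
  ((n : ℤ) = if t = true then -4 * m else -m) →
  Nat.card {d : ℕ // Dn n d} =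
    Nat.card {y : {x : ℕ // x ∈ Vt t S} → ZMod 2 // IsLk (NS t r s S) y} ∧
  ∀ a c : ℤ, Cv a c → Lm a c m →
  Nat.card {d : ℕ // Dn n d ∧ ∀ d' : ℕ, Dn n d' → BL (lb a c) d d' = 0} =
    Nat.card {y : {x : ℕ // x ∈ Vt t S} → ZMod 2 // IsLk (NS t r s S) y ∧
      ∀ z, IsLk (NS t r s S) z →
        ∑ l ∈ lb a c, Bf (fun p : {x : ℕ // x ∈ Vt t S} => nr l p.1) y z = 0}

/-- SLK-IND: the labels of several curves. -/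
def S_IND : Prop := ∀ (k : ℕ) (a c : Fin k → ℤ), (∀ i, Cv (a i) (c i)) →
  (∀ T : Finset (Fin k), T.Nonempty → ¬ IsSquare (∏ i ∈ T, (a i ^ 2 - c i ^ 2))) →
  ∀ Q : ℕ, 0 < Q → (∀ i, ∀ l ∈ lb (a i) (c i), l ∣ Q) →
  ∃ (L : ℕ) (ell : Fin L → ℕ) (e : Fin k → Fin L → ZMod 2), Lb ell e Q ∧
    (∀ l, ∃ i, ell l ∈ lb (a i) (c i)) ∧
    ∀ (i : Fin k) (V : Type) [Fintype V] (g : ℕ → V → ZMod 2) (y z : V → ZMod 2),
      Fm (fun l => g (ell l)) (e i) y z = ∑ l ∈ lb (a i) (c i), Bf (g l) y z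

end Pool.Agent.N637.SLK
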