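import Pool.Agent.N637.SLK.Rad

/-!
# Project SLK: assembly of the arithmetic parts
-/

set_option autoImplicit false
set_option linter.all false

open scoped Classical

namespace Pool.Agent.N637.SLK

open Finset Filter Topology NumberField
open Pool.Agent.N916.GB (Po Vt z2)
open Pool.Agent.Y703.CQ (nr)
open Pool.Agent.TH841.SH (SelG LocC IsR)
open Pool.Agent.TH841.SH.D (Sha)
open Pool.Agent.N637.SLX (NS IsLk Bf wv nc dY cl2_pos)

/-- the arithmetic parts -/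
structure HA : Prop where
  LIN : S_LIN
  NEC : S_NEC
  SUF : S_SUF
  INJ : S_INJ
  SELQ : Pool.Agent.N637.SLX.S_SELQ
  RK4 : S_RK4
  IND : S_IND

/-- the number of the elements of the left kernel -/
noncomputable def nL (t : Bool) (r s : ZMod 2) (S : Finset ℕ) : ℕ :=
  Nat.card {y : {x : ℕ // x ∈ Vt t S} → ZMod 2 // IsLk (NS t r s S) y}

/-- the number of the elements of the radical -/
noncomputable def nR (t : Bool) (r s : ZMod 2) (S Λ : Finset ℕ) : ℕ :=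
  Nat.card {y : {x : ℕ // x ∈ Vt t S} → ZMod 2 // IsLk (NS t r s S) y ∧
      ∀ z, IsLk (NS t r s S) z → ∑ l ∈ Λ, Bf (fun p : {x : ℕ // x ∈ Vt t S} => nr l p.1) y z = 0}

/-- the order of the 2-Selmer group -/
theorem sel_card (H : HA) {t : Bool} {r s : ZMod 2} {S : Finset ℕ} {m a c : ℤ} (h : TyG t r s S m)
    (hC : Cv a c) (hL : Lm a c m) :
    (SelG 0 (a ^ 2 * m) (-(c ^ 2 - a ^ 2) * m)).Finite ∧
      Nat.card {z : ℤ × ℤ // z ∈ SelG 0 (a ^ 2 * m) (-(c ^ 2 - a ^ 2) * m)} =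
      nL t r s S * nR t r s S (lb a c) := by
  set V := {x : ℕ // x ∈ Vt t S} with hV
  let Z := {z : (V → ZMod 2) × (V → ZMod 2) // IsLk (NS t r s S) z.2 ∧
    RwF (NS t r s S) (lb a c) (fun l p => nr l p.1) z.1 z.2}
  let φ : Z → {z : ℤ × ℤ // z ∈ SelG 0 (a ^ 2 * m) (-(c ^ 2 - a ^ 2) * m)} := fun z =>
    ⟨(dXG t r s S (lb a c) z.1.1 z.1.2, dY t S z.1.2),
      H.SUF t r s S m a c h hC hL z.1.1 z.1.2 z.2.1 z.2.2⟩
  have hinj : Function.Injective φ := by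
    rintro ⟨⟨x, y⟩, h1, h2⟩ ⟨⟨x', y'⟩, h1', h2'⟩ he
    have he' := congrArg Subtype.val he
    have e1 : dXG t r s S (lb a c) x y = dXG t r s S (lb a c) x' y' := congrArg Prod.fst he'
    have e2 : dY t S y = dY t S y' := congrArg Prod.snd he'
    obtain ⟨e3, e4⟩ := H.INJ t r s S m a c h hC hL x y x' y' e1 e2
    subst e3
    subst e4
    rfl
  have hsur : Function.Surjective φ := by
    rintro ⟨z, hz⟩
    obtain ⟨x, y, h1, h2, rfl⟩ := H.NEC t r s S m a c h hC hL z hz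
    exact ⟨⟨(x, y), h1, h2⟩, rfl⟩
  have hcard := Nat.card_congr (Equiv.ofBijective φ ⟨hinj, hsur⟩)
  refine ⟨?_, ?_⟩
  · have : Finite {z : ℤ × ℤ // z ∈ SelG 0 (a ^ 2 * m) (-(c ^ 2 - a ^ 2) * m)} :=
      Finite.of_surjective φ hsur
    exact Set.toFinite _
  · rw [← hcard]
    exact H.LIN V (NS t r s S) (lb a c) (fun l p => nr l p.1)

lemma cv_ne {a c : ℤ} (hC : Cv a c) : a ≠ 0 ∧ c ≠ 0 ∧ c ^ 2 - a ^ 2 ≠ 0 := by
  have h1 := hC.ha
  have h2 := hC.hc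
  refine ⟨by omega, by omega, fun h => ?_⟩
  obtain ⟨u, hu⟩ : ∃ u, a = 2 * u + 1 := ⟨a / 2, by omega⟩
  obtain ⟨v, hv⟩ : ∃ v, c = 2 * v := ⟨c / 2, by omega⟩
  rw [hu, hv] at h
  have e : (2 * v) ^ 2 - (2 * u + 1) ^ 2 = 2 * (2 * v ^ 2 - 2 * u ^ 2 - 2 * u) - 1 := by ring
  rw [e] at h
  omega

/-- **The rank and `Ш[2]`.** -/
theorem main_sel (H : HA) {t : Bool} {r s : ZMod 2} {S : Finset ℕ} {m a c : ℤ} (h : TyG t r s S m)
    (hC : Cv a c) (hL : Lm a c m) {W : WeierstrassCurve ℚ}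
    (hW : IsR W ((0 : ℤ) : ℚ) ((a ^ 2 * m : ℤ) : ℚ) ((-(c ^ 2 - a ^ 2) * m : ℤ) : ℚ))
    {x y : ℕ} (hx : nL t r s S = 2 ^ (x + 1)) (hy : nR t r s S (lb a c) = 2 ^ (y + 1)) :
    AddGroup.FG W.toAffine.Point ∧ Finite {x : Sha W // 2 • x = 0} ∧
    2 ^ Module.finrank ℤ W.toAffine.Point * Nat.card {x : Sha W // 2 • x = 0} = 2 ^ (x + y) := by
  have hm : m ≠ 0 := h.neg.ne
  obtain ⟨ha, hc, hb⟩ := cv_ne hC
  obtain ⟨hf, hcard⟩ := sel_card H h hC hL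
  obtain ⟨h1, h2, h3⟩ := H.SELQ W 0 (a ^ 2 * m) (-(c ^ 2 - a ^ 2) * m)
    (mul_ne_zero (pow_ne_zero 2 ha) hm).symm (mul_ne_zero (neg_ne_zero.2 hb) hm).symm
    (fun h0 => by
      have h4 : c ^ 2 * m = 0 := by linear_combination h0
      exact mul_ne_zero (pow_ne_zero 2 hc) hm h4) hW hf
  refine ⟨h1, h2, ?_⟩
  rw [hcard, hx, hy] at h3
  have h4 : 4 * 2 ^ (x + y) = 4 * (2 ^ Module.finrank ℤ W.toAffine.Point *
      Nat.card {x : Sha W // 2 • x = 0}) := by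
    calc 4 * 2 ^ (x + y) = 2 ^ (x + 1) * 2 ^ (y + 1) := by ring
      _ = _ := h3
      _ = _ := by ring
  omega

/-- **The 4-rank.** -/
theorem main_rk4 (H : HA) {t : Bool} {r s : ZMod 2} {S : Finset ℕ} {m : ℤ} (h : TyG t r s S m)
    (hm : m ≠ -1) (K : Type) [Field K] [NumberField K] (h2 : Module.finrank ℚ K = 2)
    (hz : ∃ z : K, z ^ 2 = (m : K)) {x : ℕ} (hx : nL t r s S = 2 ^ (x + 1)) :
    Nat.card {c : ClassGroup (𝓞 K) // c ^ 4 = 1} =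
      2 ^ x * Nat.card {c : ClassGroup (𝓞 K) // c ^ 2 = 1} := by
  have h3 := H.RK4 t r s S m h hm K h2 hz
  have e : Nat.card {y : {x : ℕ // x ∈ Vt t S} → ZMod 2 // IsLk (NS t r s S) y} = 2 ^ (x + 1) := hx
  rw [e] at h3
  have h4 : Nat.card {c : ClassGroup (𝓞 K) // c ^ 4 = 1} * 2 =
      (2 ^ x * Nat.card {c : ClassGroup (𝓞 K) // c ^ 2 = 1}) * 2 := by
    rw [h3]
    ring
  omega

/-- the curves -/
structure Cvs {k : ℕ} (a c : Fin k → ℤ) : Prop where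
  cv : ∀ i, Cv (a i) (c i)
  ind : ∀ T : Finset (Fin k), T.Nonempty → ¬ IsSquare (∏ i ∈ T, (a i ^ 2 - c i ^ 2))

/-- the labels -/
structure Lbs {k L : ℕ} (a c : Fin k → ℤ) (ell : Fin L → ℕ) (e : Fin k → Fin L → ZMod 2) (Q : ℕ) :
    Prop where
  lbl : Lb ell e Q
  mem : ∀ l, ∃ i, ell l ∈ lb (a i) (c i)
  fm : ∀ (i : Fin k) (V : Type) [Fintype V] (g : ℕ → V → ZMod 2) (y z : V → ZMod 2),
      Fm (fun l => g (ell l)) (e i) y z = ∑ l ∈ lb (a i) (c i), Bf (g l) y z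

lemma two_of {k L : ℕ} {a c : Fin k → ℤ} {ell : Fin L → ℕ} {e : Fin k → Fin L → ZMod 2} {Q : ℕ}
    (h : Lbs a c ell e Q) (i : Fin k) : ∑ l ∈ lb (a i) (c i), nr l 2 = 0 := by
  have h1 := h.fm i (Fin 2) (fun l => ![nr l 2, 1]) ![1, 0] ![0, 1]
  have e1 : ∀ u v : ZMod 2, Bf (![u, v] : Fin 2 → ZMod 2) ![1, 0] ![0, 1] = u * v := by
    intro u v
    unfold Pool.Agent.N637.SLX.Bf
    simp [Fin.sum_univ_two]
  unfold Fm at h1
  simp only [e1, mul_one] at h1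
  rw [← h1]
  exact h.lbl.two i

theorem crit_gen {V : Type} [Fintype V] {k L : ℕ} (N : V → V → ZMod 2) (f : Fin L → V → ZMod 2)
    (e : Fin k → Fin L → ZMod 2) (x : ℕ) (j : Fin k → ℕ) :
    CritF N f e x j ↔ Nat.card {y : V → ZMod 2 // IsLk N y} = 2 ^ (x + 1) ∧
      ∀ i, Nat.card {y : V → ZMod 2 // RadF N f (e i) y} = 2 ^ (j i + 1) := by
  unfold CritF
  rw [nc]
  exact and_congr_right fun _ => forall_congr' fun i => by rw [nc]

/-- the criterion in terms of the numbers -/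
theorem crit_iff {k L : ℕ} {a c : Fin k → ℤ} {ell : Fin L → ℕ} {e : Fin k → Fin L → ZMod 2} {Q : ℕ}
    (h : Lbs a c ell e Q) (t : Bool) (r s : ZMod 2) (S : Finset ℕ) (x : ℕ) (j : Fin k → ℕ) :
    GjF t r s ell e x j S ↔ nL t r s S = 2 ^ (x + 1) ∧
      ∀ i, nR t r s S (lb (a i) (c i)) = 2 ^ (j i + 1) := by
  unfold GjF nL nR
  rw [crit_gen]
  refine and_congr_right fun _ => forall_congr' fun i => ?_
  have e1 : Nat.card {y : {x : ℕ // x ∈ Vt t S} → ZMod 2 //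
      RadF (NS t r s S) (fun l p => nr (ell l) p.1) (e i) y} =
      Nat.card {y : {x : ℕ // x ∈ Vt t S} → ZMod 2 // IsLk (NS t r s S) y ∧
      ∀ z, IsLk (NS t r s S) z →
        ∑ l ∈ lb (a i) (c i), Bf (fun p : {x : ℕ // x ∈ Vt t S} => nr l p.1) y z = 0} := by
    refine Nat.card_congr (Equiv.subtypeEquivRight fun y => ?_)
    unfold RadF
    refine and_congr_right fun _ => forall_congr' fun z => forall_congr' fun _ => ?_
    rw [← h.fm i _ (fun l p => nr l p.1) y z]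
  rw [e1]

/-- the existence of the numbers -/
theorem ex_num {t : Bool} {r s : ZMod 2} {S : Finset ℕ} {m : ℤ} (h : TyG t r s S m) (hm : m ≠ -1) :
    ∃ x : ℕ, nL t r s S = 2 ^ (x + 1) ∧ ∀ a c : ℤ, Cv a c → Lm a c m →
      ∑ l ∈ lb a c, nr l 2 = 0 →
      ∃ y : ℕ, nR t r s S (lb a c) = 2 ^ (y + 1) ∧ y ≤ x ∧ Even (x + y) := by
  obtain ⟨x, h1, h2⟩ := crit_ex (NS t r s S) _ (w_ne h hm) (lk_w h)
  refine ⟨x, h1, fun a c hC hL two => ?_⟩
  exact h2 (lb a c) (fun l p => nr l p.1) fun z _ => rad_w h hC hL two z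

/-- `m ≠ -1` -/
lemma ne_neg_one {a c m : ℤ} (hC : Cv a c) (hL : Lm a c m) : m ≠ -1 := by
  rintro rfl
  obtain ⟨ha, hc, hb⟩ := cv_ne hC
  have h1 : (c ^ 2 - a ^ 2).natAbs ≠ 1 := by
    intro h1
    have h2 : c ^ 2 - a ^ 2 = 1 ∨ c ^ 2 - a ^ 2 = -1 := by omega
    have e : c ^ 2 - a ^ 2 = (c - a) * (c + a) := by ring
    rw [e] at h2
    have h3 : IsUnit ((c - a) * (c + a)) := Int.isUnit_iff.2 h2
    have h4 := isUnit_of_mul_isUnit_left h3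
    have h5 := isUnit_of_mul_isUnit_right h3
    rcases Int.isUnit_iff.1 h4 with h6 | h6 <;> rcases Int.isUnit_iff.1 h5 with h7 | h7 <;> omega
  obtain ⟨p, hp, hd⟩ := Nat.exists_prime_and_dvd h1
  have h2 := hL.bb p hp (Int.natCast_dvd.2 hd)
  rw [neg_neg, jacobiSym.one_left] at h2
  norm_num at h2

end Pool.Agent.N637.SLK
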