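import Pool.Agent.N637.SLK.Lin
import Pool.Agent.N637.SLX.Stm2

/-!
# Project SLK (helper637): the machine and the density
-/

set_option autoImplicit false
set_option linter.unusedVariables false

open scoped Classical

namespace Pool.Agent.N637.SLK

open Finset Filter Topology
open Pool.Agent.N916.GB (Po Vt sy)
open Pool.Agent.N916.AM (LAH)
open Pool.Agent.N916.TE (FD)
open Pool.Agent.Y703.CQ (nr)
open Pool.Agent.N973.ND (uu)
open Pool.Agent.N637.SLX (NS)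

/-- the criterion for the set `S`; the labels are the symbols modulo the primes `ell l` -/
def GjF {k L : ℕ} (t : Bool) (r s : ZMod 2) (ell : Fin L → ℕ) (c : Fin k → Fin L → ZMod 2) (a : ℕ)
    (j : Fin k → ℕ) (S : Finset ℕ) : Prop :=
  CritF (NS t r s S) (fun l p => nr (ell l) p.1) c a j

/-- the labels: odd primes dividing `Q`; the labels at `2` cancel; independence of the forms -/
structure Lb {k L : ℕ} (ell : Fin L → ℕ) (c : Fin k → Fin L → ZMod 2) (Q : ℕ) : Prop where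
  pr : ∀ l, (ell l).Prime ∧ ell l ≠ 2 ∧ ell l ∣ Q
  two : ∀ i, ∑ l, c i l * nr (ell l) 2 = 0
  ind : ∀ (s : ZMod 2) (γ : Fin k → ZMod 2), (s ≠ 0 ∨ γ ≠ 0) →
    ∃ x : ℕ, x.Coprime (2 * Q) ∧ s * uu x + ∑ i, γ i * ∑ l, c i l * nr (ell l) x ≠ 0

/-- SLK-RED: the criterion satisfies the hypothesis of the machine. -/
def S_RED : Prop := S_LAJ → ∀ (k L : ℕ) (ell : Fin L → ℕ) (c : Fin k → Fin L → ZMod 2) (M : ℕ),
  8 ∣ M → 0 < M → Lb ell c M → ∀ (t : Bool) (r s : ZMod 2) (K : Finset ℕ), (t = false → s = 0) →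
  (t = true → r ≠ 0 ∨ s ≠ 0) → (∀ a ∈ K, a % 4 = if s = 0 then 3 else 1) →
  (∀ a ∈ K, ∀ l, ¬ ell l ∣ a ∧ nr (ell l) a + (if t = true then r * nr (ell l) 2 else 0) = 1) →
  ∀ (a : ℕ) (j : Fin k → ℕ), LAH M K (GjF t r s ell c a j) (lawF a j)

/-- the criterion for `n` -/
def GnF {k L : ℕ} (ell : Fin L → ℕ) (c : Fin k → Fin L → ZMod 2) (a : ℕ) (j : Fin k → ℕ) (n : ℕ) :
    Prop := (n % 2 = 1 → GjF false 0 0 ell c a j n.primeFactors) ∧
  (∀ M : ℕ, n = 4 * M → M % 4 = 1 → GjF true 0 1 ell c a j M.primeFactors) ∧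
  (∀ M : ℕ, n = 8 * M → M % 4 = 1 → GjF true 1 1 ell c a j M.primeFactors) ∧
  ∀ M : ℕ, n = 8 * M → M % 4 = 3 → GjF true 1 0 ell c a j M.primeFactors

/-- SLK-DEN: the natural density of the criterion among the fundamental discriminants `-n` with `n` modulo `Q` in
`R`. -/
def S_DEN : Prop := S_LAJ → S_RED → ∀ (k L : ℕ) (ell : Fin L → ℕ) (c : Fin k → Fin L → ZMod 2) (Q : ℕ)
  (R : Finset ℕ) (n₀ : ℕ), 0 < Q → Lb ell c Q → (∀ x ∈ R, ∀ l, nr (ell l) x = 1) →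
  Squarefree n₀ → n₀ % 4 = 3 → n₀ % Q ∈ R → ∀ (a : ℕ) (j : Fin k → ℕ), Tendsto (fun X : ℕ =>
  (((Icc 1 X).filter fun n => (FD n ∧ n % Q ∈ R) ∧ GnF ell c a j n).card : ℝ) /
    (((Icc 1 X).filter fun n => FD n ∧ n % Q ∈ R).card : ℝ)) atTop (𝓝 (lawF a j))

end Pool.Agent.N637.SLK
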