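import Pool.Agent.N637.SLK.Asm

/-!
# Project SLK: the family, residues
-/

set_option autoImplicit false
set_option linter.all false

open scoped Classical

namespace Pool.Agent.N637.SLK

open Finset Filter Topology NumberField
open Pool.Agent.N916.GB (Po Vt z2)
open Pool.Agent.Y703.CQ (nr)
open Pool.Agent.N916.TE (FD)

/-- no split multiplicative reduction of the twist, `n` prime to the odd bad primes -/
def Adm (a c : ℤ) (n : ℕ) : Prop :=
  (∀ p : ℕ, p.Prime → p ≠ 2 → (p : ℤ) ∣ a * c → jacobiSym (-(n : ℤ)) p = -1) ∧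
  ∀ p : ℕ, p.Prime → (p : ℤ) ∣ c ^ 2 - a ^ 2 → jacobiSym (n : ℤ) p = -1

/-- the squarefree number -/
def mm (n : ℕ) : ℤ := if n % 2 = 1 then -(n : ℤ) else -((n / 4 : ℕ) : ℤ)

lemma po_of_odd {k : ℕ} (hk : k % 2 = 1) : ∀ p ∈ k.primeFactors, Po p := by
  intro p hp
  obtain ⟨h1, h2, h3⟩ := Nat.mem_primeFactors.1 hp
  refine ⟨h1, ?_⟩
  rintro rfl
  omega

/-- the type of `n` -/
theorem ty_of {n : ℕ} (h : FD n) : ∃ (t : Bool) (r s : ZMod 2) (S : Finset ℕ),
    TyG t r s S (mm n) ∧ ((n : ℤ) = if t = true then -4 * mm n else -mm n) ∧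
    ∀ (k L : ℕ) (ell : Fin L → ℕ) (e : Fin k → Fin L → ZMod 2) (a : ℕ) (j : Fin k → ℕ),
      GnF ell e a j n ↔ GjF t r s ell e a j S := by
  rcases h with ⟨hs, h4⟩ | ⟨k, rfl, hs, h4⟩
  · have em : mm n = -(n : ℤ) := if_pos (by omega)
    have hn0 : 0 < n := hs.ne_zero.bot_lt
    have hprod : ∏ p ∈ n.primeFactors, p = n := Nat.prod_primeFactors_of_squarefree hs
    refine ⟨false, 0, 0, n.primeFactors, ⟨po_of_odd (by omega), by omega, ?_,
      Or.inl ⟨rfl, rfl, ?_, by omega⟩⟩, ?_, ?_⟩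
    · rw [em, ← Int.squarefree_natAbs, Int.natAbs_neg, Int.natAbs_natCast]
      exact hs
    · rw [hprod]
      exact em
    · rw [em, if_neg (by decide)]
      omega
    · intro k L ell e a b
      unfold GnF
      constructor
      · exact fun h => h.1 (by omega)
      · exact fun h => ⟨fun _ => h, fun M hM => by omega, fun M hM => by omega,
          fun M hM => by omega⟩
  · have em : mm (4 * k) = -(k : ℤ) := by
      unfold mm
      rw [if_neg (by omega)]
      congr 1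
      omega
    have hsqm : Squarefree (mm (4 * k)) := by
      rw [em, ← Int.squarefree_natAbs, Int.natAbs_neg, Int.natAbs_natCast]
      exact hs
    have hk0 : 0 < k := hs.ne_zero.bot_lt
    rcases h4 with h4 | h4
    · have hprod : ∏ p ∈ k.primeFactors, p = k := Nat.prod_primeFactors_of_squarefree hs
      refine ⟨true, 0, 1, k.primeFactors, ⟨po_of_odd (by omega), by omega, hsqm,
        Or.inr (Or.inl ⟨rfl, rfl, rfl, ?_, by omega⟩)⟩, ?_, ?_⟩
      · rw [hprod]
        exact em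
      · rw [em, if_pos rfl]
        push_cast
        ring
      · intro k' L ell e a b
        unfold GnF
        constructor
        · exact fun h => h.2.1 k rfl h4
        · refine fun h => ⟨fun h' => by omega, fun M hM _ => ?_, fun M hM => by omega,
            fun M hM => by omega⟩
          have : M = k := by omega
          rw [this]
          exact h
    · obtain ⟨M, rfl⟩ : ∃ M, k = 2 * M := ⟨k / 2, by omega⟩
      have hsM : Squarefree M := hs.squarefree_of_dvd (Dvd.intro_left 2 rfl)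
      have hprod : ∏ p ∈ M.primeFactors, p = M := Nat.prod_primeFactors_of_squarefree hsM
      have hM2 : M % 4 = 1 ∨ M % 4 = 3 := by omega
      rcases hM2 with hM | hM
      · refine ⟨true, 1, 1, M.primeFactors, ⟨po_of_odd (by omega), by omega, hsqm,
          Or.inr (Or.inr (Or.inl ⟨rfl, rfl, rfl, ?_, ?_⟩))⟩, ?_, ?_⟩
        · rw [hprod, em]
          push_cast
          ring
        · rw [hprod]
          exact hM
        · rw [em, if_pos rfl]
          push_cast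
          ring
        · intro k' L ell e a b
          unfold GnF
          constructor
          · exact fun h => h.2.2.1 M (by ring) hM
          · refine fun h => ⟨fun h' => by omega, fun M' hM' => by omega, fun M' hM' _ => ?_,
              fun M' hM' => by omega⟩
            have : M' = M := by omega
            rw [this]
            exact h
      · refine ⟨true, 1, 0, M.primeFactors, ⟨po_of_odd (by omega), by omega, hsqm,
          Or.inr (Or.inr (Or.inr ⟨rfl, rfl, rfl, ?_, ?_⟩))⟩, ?_, ?_⟩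
        · rw [hprod, em]
          push_cast
          ring
        · rw [hprod]
          exact hM
        · rw [em, if_pos rfl]
          push_cast
          ring
        · intro k' L ell e a b
          unfold GnF
          constructor
          · exact fun h => h.2.2.2 M (by ring) hM
          · refine fun h => ⟨fun h' => by omega, fun M' hM' => by omega, fun M' hM' => by omega,
              fun M' hM' _ => ?_⟩
            have : M' = M := by omega
            rw [this]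
            exact h

lemma jac_four {p : ℕ} (hp : p.Prime) (h2 : p ≠ 2) (x : ℤ) : jacobiSym (4 * x) p = jacobiSym x p := by
  have e : (4 : ℤ) = 2 ^ 2 := by norm_num
  rw [jacobiSym.mul_left, e, jacobiSym.sq_one', one_mul]
  rw [← Int.isCoprime_iff_gcd_eq_one]
  have h3 : Nat.Coprime 2 p := (Nat.coprime_primes Nat.prime_two hp).2 (Ne.symm h2)
  exact_mod_cast Nat.isCoprime_iff_coprime.2 h3

lemma jac_mm {n : ℕ} (h : FD n) {p : ℕ} (hp : p.Prime) (h2 : p ≠ 2) :
    jacobiSym (mm n) p = jacobiSym (-(n : ℤ)) p ∧ jacobiSym (-mm n) p = jacobiSym (n : ℤ) p := by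
  rcases h with ⟨hs, h4⟩ | ⟨k, rfl, hs, h4⟩
  · have em : mm n = -(n : ℤ) := if_pos (by omega)
    rw [em, neg_neg]
    exact ⟨rfl, rfl⟩
  · have em : mm (4 * k) = -(k : ℤ) := by
      unfold mm
      rw [if_neg (by omega)]
      congr 1
      omega
    rw [em, neg_neg]
    have e1 : (-(((4 * k : ℕ)) : ℤ)) = 4 * (-(k : ℤ)) := by push_cast; ring
    have e2 : ((((4 * k : ℕ)) : ℤ)) = 4 * (k : ℤ) := by push_cast; ring
    rw [e1, e2, jac_four hp h2, jac_four hp h2]
    exact ⟨rfl, rfl⟩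

lemma dvd_ne_two {a c : ℤ} (hC : Cv a c) {p : ℕ} (h : (p : ℤ) ∣ c ^ 2 - a ^ 2) : p ≠ 2 := by
  rintro rfl
  have h1 : (2 : ℤ) ∣ c ^ 2 - a ^ 2 := by exact_mod_cast h
  obtain ⟨u, hu⟩ : ∃ u, a = 2 * u + 1 := ⟨a / 2, by have := hC.ha; omega⟩
  obtain ⟨v, hv⟩ : ∃ v, c = 2 * v := ⟨c / 2, by have := hC.hc; omega⟩
  rw [hu, hv] at h1
  have e : (2 * v) ^ 2 - (2 * u + 1) ^ 2 = 2 * (2 * v ^ 2 - 2 * u ^ 2 - 2 * u) - 1 := by ring
  rw [e] at h1
  omega

/-- the conditions for `m` -/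
theorem lm_of {n : ℕ} (h : FD n) {a c : ℤ} (hC : Cv a c) (hA : Adm a c n) : Lm a c (mm n) := by
  obtain ⟨t, r, s, S, hT, -, -⟩ := ty_of h
  refine ⟨hT.neg, hT.sqf, fun p hp h2 hd => ?_, fun p hp hd => ?_⟩
  · rw [(jac_mm h hp h2).1]
    exact hA.1 p hp h2 hd
  · rw [(jac_mm h hp (dvd_ne_two hC hd)).2]
    exact hA.2 p hp hd

section bad

variable {k : ℕ} (a c : Fin k → ℤ)

/-- the odd bad primes -/
noncomputable def bad : Finset ℕ := univ.biUnion fun i =>
  ((a i * c i * (c i ^ 2 - a i ^ 2)).natAbs.primeFactors).erase 2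

/-- the modulus -/
noncomputable def QQ : ℕ := ∏ p ∈ bad a c, p

/-- the residues -/
noncomputable def RR : Finset ℕ := (range (QQ a c)).filter fun x => ∀ i, Adm (a i) (c i) x

end bad

section

variable {k : ℕ} {a c : Fin k → ℤ}

lemma mem_bad (hC : ∀ i, Cv (a i) (c i)) {p : ℕ} : p ∈ bad a c ↔ p.Prime ∧ p ≠ 2 ∧
    ∃ i, (p : ℤ) ∣ a i * c i * (c i ^ 2 - a i ^ 2) := by
  unfold bad
  simp only [mem_biUnion, mem_univ, true_and, mem_erase, Nat.mem_primeFactors]
  constructor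
  · rintro ⟨i, h2, h1, h3, h4⟩
    exact ⟨h1, h2, i, Int.natCast_dvd.2 h3⟩
  · rintro ⟨h1, h2, i, h3⟩
    refine ⟨i, h2, h1, Int.natCast_dvd.1 h3, ?_⟩
    obtain ⟨u1, u2, u3⟩ := cv_ne (hC i)
    exact Int.natAbs_ne_zero.2 (mul_ne_zero (mul_ne_zero u1 u2) u3)

lemma QQ_pos (hC : ∀ i, Cv (a i) (c i)) : 0 < QQ a c :=
  Finset.prod_pos fun p hp => ((mem_bad hC).1 hp).1.pos

lemma dvd_QQ {p : ℕ} (hp : p ∈ bad a c) : p ∣ QQ a c := Finset.dvd_prod_of_mem _ hp

lemma jac_congr {p : ℕ} {x y : ℤ} (h : (p : ℤ) ∣ x - y) : jacobiSym x p = jacobiSym y p :=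
  jacobiSym.mod_left' (Int.modEq_iff_dvd.2 h).symm

lemma adm_congr (hC : ∀ i, Cv (a i) (c i)) {x y : ℕ} (h : ∀ p ∈ bad a c, (p : ℤ) ∣ (x : ℤ) - y)
    (i : Fin k) : Adm (a i) (c i) x → Adm (a i) (c i) y := by
  rintro ⟨h1, h2⟩
  refine ⟨fun p hp hp2 hd => ?_, fun p hp hd => ?_⟩
  · rw [← h1 p hp hp2 hd]
    refine jac_congr ?_
    have h3 := h p ((mem_bad hC).2 ⟨hp, hp2, i, hd.mul_right _⟩)
    have e : -(y : ℤ) - -(x : ℤ) = x - y := by ring
    rw [e]
    exact h3
  · rw [← h2 p hp hd]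
    refine jac_congr ?_
    have h3 := h p ((mem_bad hC).2 ⟨hp, dvd_ne_two (hC i) hd, i, hd.mul_left _⟩)
    have e : (y : ℤ) - (x : ℤ) = -(x - y) := by ring
    rw [e]
    exact (dvd_neg).2 h3

lemma mem_RR (hC : ∀ i, Cv (a i) (c i)) (n : ℕ) : n % QQ a c ∈ RR a c ↔
    ∀ i, Adm (a i) (c i) n := by
  have hd : ∀ p ∈ bad a c, (p : ℤ) ∣ ((n % QQ a c : ℕ) : ℤ) - n := by
    intro p hp
    have h1 : ((QQ a c : ℕ) : ℤ) ∣ (n : ℤ) - ((n % QQ a c : ℕ) : ℤ) :=
      (Nat.modEq_iff_dvd).1 (Nat.mod_modEq n (QQ a c))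
    have h2 : (p : ℤ) ∣ ((QQ a c : ℕ) : ℤ) := Int.natCast_dvd_natCast.2 (dvd_QQ hp)
    have e : ((n % QQ a c : ℕ) : ℤ) - n = -((n : ℤ) - ((n % QQ a c : ℕ) : ℤ)) := by ring
    rw [e]
    exact (dvd_neg).2 (h2.trans h1)
  unfold RR
  rw [mem_filter, mem_range]
  constructor
  · exact fun h i => adm_congr hC hd i (h.2 i)
  · refine fun h => ⟨Nat.mod_lt _ (QQ_pos hC), fun i => adm_congr hC (fun p hp => ?_) i (h i)⟩
    have := (dvd_neg).2 (hd p hp)
    have e : (n : ℤ) - ((n % QQ a c : ℕ) : ℤ) = -(((n % QQ a c : ℕ) : ℤ) - n) := by ring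
    rw [e]
    exact this

/-- compatible: no prime `3 mod 4` divides some `a_i c_i` and some `c_j ^ 2 - a_j ^ 2` -/
def Cmpt (a c : Fin k → ℤ) : Prop := ∀ i j, ∀ p : ℕ, p.Prime → p % 4 = 3 → (p : ℤ) ∣ a i * c i →
  ¬ (p : ℤ) ∣ c j ^ 2 - a j ^ 2

lemma exists_nr {p : ℕ} (hp : p.Prime) (h2 : p ≠ 2) : ∃ x : ℕ, jacobiSym (x : ℤ) p = -1 := by
  have : Fact p.Prime := ⟨hp⟩
  obtain ⟨y, hy⟩ := FiniteField.exists_nonsquare (F := ZMod p) (by rw [ZMod.ringChar_zmod_n]; exact h2)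
  refine ⟨y.val, ?_⟩
  rw [← jacobiSym.legendreSym.to_jacobiSym, legendreSym.eq_neg_one_iff]
  push_cast
  rw [ZMod.natCast_val, ZMod.cast_id]
  exact hy

lemma jac_neg {p : ℕ} (hp : p.Prime) (h2 : p ≠ 2) (x : ℤ) :
    jacobiSym (-x) p = if p % 4 = 1 then jacobiSym x p else -jacobiSym x p := by
  have ho : Odd p := hp.odd_of_ne_two h2
  rw [neg_eq_neg_one_mul x, jacobiSym.mul_left, jacobiSym.at_neg_one ho]
  have h4 : p % 4 = 1 ∨ p % 4 = 3 := by
    obtain ⟨u, hu⟩ := ho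
    omega
  split_ifs with h
  · rw [ZMod.χ₄_nat_one_mod_four h, one_mul]
  · rw [ZMod.χ₄_nat_three_mod_four (h4.resolve_left h), neg_one_mul]

/-- the existence of a prime in the family -/
theorem exists_n0 (hC : ∀ i, Cv (a i) (c i)) (hM : Cmpt a c) :
    ∃ n : ℕ, n.Prime ∧ n % 4 = 3 ∧ ∀ i, Adm (a i) (c i) n := by
  -- residues
  have hx : ∀ p : ℕ, p.Prime → p ≠ 2 → ∃ x : ℕ, ¬ p ∣ x ∧
      ((∃ i, (p : ℤ) ∣ a i * c i) → jacobiSym (-(x : ℤ)) p = -1) ∧
      ((∃ i, (p : ℤ) ∣ c i ^ 2 - a i ^ 2) → jacobiSym (x : ℤ) p = -1) := by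
    intro p hp h2
    have hnd : ∀ x : ℕ, (jacobiSym (x : ℤ) p = -1 ∨ x = 1) → ¬ p ∣ x := by
      rintro x (h | rfl) hd
      · have : Fact p.Prime := ⟨hp⟩
        rw [← jacobiSym.legendreSym.to_jacobiSym, legendreSym.eq_neg_one_iff] at h
        refine h ⟨0, ?_⟩
        rw [mul_zero]
        push_cast
        exact (ZMod.natCast_eq_zero_iff _ _).2 hd
      · exact hp.one_lt.ne' (Nat.dvd_one.1 hd)
    by_cases h3 : p % 4 = 1
    · obtain ⟨x, hx⟩ := exists_nr hp h2
      refine ⟨x, hnd x (Or.inl hx), fun _ => ?_, fun _ => hx⟩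
      rw [jac_neg hp h2, if_pos h3, hx]
    · have h4 : p % 4 = 3 := by
        obtain ⟨u, hu⟩ := hp.odd_of_ne_two h2
        omega
      by_cases h5 : ∃ i, (p : ℤ) ∣ a i * c i
      · refine ⟨1, hnd 1 (Or.inr rfl), fun _ => ?_, fun ⟨j, hj⟩ => ?_⟩
        · rw [jac_neg hp h2, if_neg h3]
          push_cast
          rw [jacobiSym.one_left]
        · obtain ⟨i, hi⟩ := h5
          exact absurd hj (hM i j p hp h4 hi)
      · obtain ⟨x, hx⟩ := exists_nr hp h2
        exact ⟨x, hnd x (Or.inl hx), fun h => absurd h h5, fun _ => hx⟩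
  choose! f hf using hx
  -- the Chinese remainder theorem
  set s : ℕ → ℕ := fun p => if p = 2 then 4 else p with hs
  set g : ℕ → ℕ := fun p => if p = 2 then 3 else f p with hg
  set T : Finset ℕ := insert 2 (bad a c) with hT
  have hTp : ∀ p ∈ T, p.Prime := by
    intro p hp
    rcases mem_insert.1 hp with rfl | h
    · exact Nat.prime_two
    · exact ((mem_bad hC).1 h).1
  have hs2 : ∀ p : ℕ, s p ∣ p ^ 2 := by
    intro p
    show (if p = 2 then 4 else p) ∣ p ^ 2
    split_ifs with h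
    · rw [h]
      norm_num
    · exact Dvd.intro_left p (by ring)
  have hs0 : ∀ p ∈ T, s p ≠ 0 := by
    intro p hp
    show (if p = 2 then 4 else p) ≠ 0
    split_ifs with h
    · norm_num
    · exact (hTp p hp).ne_zero
  have hco : Set.Pairwise (T : Set ℕ) (Function.onFun Nat.Coprime s) := by
    intro p hp q hq hpq
    have h1 : Nat.Coprime (p ^ 2) (q ^ 2) :=
      Nat.Coprime.pow 2 2 ((Nat.coprime_primes (hTp p hp) (hTp q hq)).2 hpq)
    exact Nat.Coprime.coprime_dvd_left (hs2 p) (Nat.Coprime.coprime_dvd_right (hs2 q) h1)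
  obtain ⟨x, hx⟩ := Nat.chineseRemainderOfFinset g s T hs0 hco
  have hx2 : x % 4 = 3 := by
    have h := hx 2 (mem_insert_self 2 _)
    have h1 : x ≡ 3 [MOD 4] := h
    exact h1
  have hxp : ∀ p ∈ bad a c, x ≡ f p [MOD p] := by
    intro p hp
    have h2 := ((mem_bad hC).1 hp).2.1
    have h := hx p (mem_insert_of_mem hp)
    have e1 : s p = p := if_neg h2
    have e2 : g p = f p := if_neg h2
    rwa [e1, e2] at h
  -- Dirichlet
  have hcop : x.Coprime (4 * QQ a c) := by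
    have h4 : x.Coprime 4 := by
      rw [show (4 : ℕ) = 2 ^ 2 by norm_num]
      refine Nat.Coprime.pow_right 2 ?_
      rw [Nat.coprime_comm, Nat.Prime.coprime_iff_not_dvd Nat.prime_two]
      omega
    refine Nat.Coprime.mul_right h4 (Nat.Coprime.prod_right fun p hp => ?_)
    obtain ⟨h1, h2, -⟩ := (mem_bad hC).1 hp
    rw [Nat.coprime_comm, Nat.Prime.coprime_iff_not_dvd h1]
    intro hd
    refine (hf p h1 h2).1 ?_
    exact (Nat.modEq_zero_iff_dvd).1 ((hxp p hp).symm.trans ((Nat.modEq_zero_iff_dvd).2 hd))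
  obtain ⟨n, -, hn, hnx⟩ := Nat.forall_exists_prime_gt_and_modEq 0 (q := 4 * QQ a c) (a := x)
    (by have := QQ_pos hC; omega) hcop
  refine ⟨n, hn, ?_, fun i => ?_⟩
  · have h : n ≡ x [MOD 4] := hnx.of_mul_right (QQ a c)
    have h1 : n % 4 = x % 4 := h
    rw [h1, hx2]
  · have hnp : ∀ p ∈ bad a c, (p : ℤ) ∣ (f p : ℤ) - n := by
      intro p hp
      have h1 : n ≡ x [MOD p] := (hnx.of_mul_left 4).of_dvd (dvd_QQ hp)
      exact (Nat.modEq_iff_dvd).1 (h1.trans (hxp p hp))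
    refine ⟨fun p hp hp2 hd => ?_, fun p hp hd => ?_⟩
    · have hb := (mem_bad hC).2 ⟨hp, hp2, i, hd.mul_right _⟩
      rw [← (hf p hp hp2).2.1 ⟨i, hd⟩]
      refine jac_congr ?_
      have e : -(n : ℤ) - -(f p : ℤ) = f p - n := by ring
      rw [e]
      exact hnp p hb
    · have hp2 := dvd_ne_two (hC i) hd
      have hb := (mem_bad hC).2 ⟨hp, hp2, i, hd.mul_left _⟩
      rw [← (hf p hp hp2).2.2 ⟨i, hd⟩]
      refine jac_congr ?_
      have e : (n : ℤ) - (f p : ℤ) = -(f p - n) := by ring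
      rw [e]
      exact (dvd_neg).2 (hnp p hb)

end

end Pool.Agent.N637.SLK
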