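import Pool.Agent.N637.SLX.Stm

/-!
# Project SLK (helper637): the joint law of the 4-rank and of the 2-Selmer groups of the twists of several
# curves. Linear algebra.

The set-up of project SLX with `k` alternating forms: `f l`, `l < L`, are functions (labels), the form number `i` is
`∑_l c i l * Bf (f l)`.
-/

set_option autoImplicit false
set_option linter.unusedVariables false

open scoped Classical

namespace Pool.Agent.N637.SLK

open Finset Filter Topology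
open Pool.Agent.N916.GB (ps sx pt)
open Pool.Agent.N637.SLX (IsLk Bf Ind Cor Alt alt gl qf cf hh Ueq Cpt Sol Cmp Srj Aff)

section form

variable {V : Type} [Fintype V]

/-- the form with the coefficients `c` -/
def Fm {L : ℕ} (f : Fin L → V → ZMod 2) (c : Fin L → ZMod 2) (y z : V → ZMod 2) : ZMod 2 :=
  ∑ l, c l * Bf (f l) y z

/-- the radical of the form on the left kernel -/
def RadF {L : ℕ} (N : V → V → ZMod 2) (f : Fin L → V → ZMod 2) (c : Fin L → ZMod 2)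
    (y : V → ZMod 2) : Prop := IsLk N y ∧ ∀ z, IsLk N z → Fm f c y z = 0

/-- the criterion: the left kernel has order `2 ^ (r + 1)`, the radical of the form number `i` has order
`2 ^ (j i + 1)` -/
def CritF {k L : ℕ} (N : V → V → ZMod 2) (f : Fin L → V → ZMod 2) (c : Fin k → Fin L → ZMod 2) (r : ℕ)
    (j : Fin k → ℕ) : Prop :=
  (univ.filter fun y : V → ZMod 2 => IsLk N y).card = 2 ^ (r + 1) ∧
  ∀ i, (univ.filter fun y : V → ZMod 2 => RadF N f (c i) y).card = 2 ^ (j i + 1)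

/-- the number of the `(r + i)`-tuples in the left kernel, independent modulo `w`, such that the Gram matrices
of the first `r` vectors have the coranks `j` -/
noncomputable def TnF {k L : ℕ} (w : V → ZMod 2) (f : Fin L → V → ZMod 2) (c : Fin k → Fin L → ZMod 2)
    (N : V → V → ZMod 2) (r i : ℕ) (j : Fin k → ℕ) : ℕ :=
  (univ.filter fun y : Fin (r + i) → V → ZMod 2 => (∀ a, IsLk N (y a)) ∧ Ind w y ∧
    ∀ x : Fin k, Cor (fun a b : Fin r =>
      Fm f (c x) (y (Fin.castAdd i a)) (y (Fin.castAdd i b))) (j x)).card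

end form

/-- the law: 4-rank `r` with the probability of Fouvry and Klüners, independent random alternating matrices with the
coranks `j i` -/
noncomputable def lawF {k : ℕ} (r : ℕ) (j : Fin k → ℕ) : ℝ :=
  (∏ i, (alt r (j i) : ℝ) / 2 ^ (r * (r - 1) / 2)) / (gl r : ℝ) *
    ∏' l : ℕ, (1 - (1 / 2 : ℝ) ^ (r + 1 + l))

/-- SLK-INV: truncated inclusion and exclusion (as `S_INV`). -/
def S_INV : Prop := ∀ (k L : ℕ) (V : Type) [Fintype V] (w : V → ZMod 2) (f : Fin L → V → ZMod 2)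
  (c : Fin k → Fin L → ZMod 2) (N : V → V → ZMod 2), w ≠ 0 → IsLk N w → (∀ i, RadF N f (c i) w) →
  ∀ (r : ℕ) (j : Fin k → ℕ) (m : ℕ),
  |(if CritF N f c r j then (1 : ℝ) else 0) -
    ∑ i ∈ range (m + 1), (-1) ^ i * (TnF w f c N r i j : ℝ) / cf r i| ≤
      (TnF w f c N r (m + 1) j : ℝ) / cf r (m + 1)

/-- the setting: `U` the small primes, `J` the large primes -/
structure Stg {k L : ℕ} (U J : Type) [Fintype U] [Fintype J] [LinearOrder J] (w u : U ⊕ J → ZMod 2)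
    (f : Fin L → U ⊕ J → ZMod 2) (c : Fin k → Fin L → ZMod 2) (N : U ⊕ J → U ⊕ J → ZMod 2)
    (V₀ : ℕ) : Prop where
  hw : ∀ k, w (Sum.inr k) = 1
  hu : ∑ i, u i = 1
  hN : ∀ i j, i ≠ j → w i * N i j + w j * N j i = u i * u j
  hv : ∀ v, w (Sum.inl v) = 0 → u (Sum.inl v) = 1 ∧ ∀ v', w (Sum.inl v') = 0 → v = v'
  nd : ∀ (b : U → ZMod 2) (s : ZMod 2), ((∃ v, b v ≠ 0) ∨ s ≠ 0) →
    ∃ k, ∑ v, b v * N (Sum.inl v) (Sum.inr k) + s * u (Sum.inr k) ≠ 0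
  rad : ∀ i, ∀ δ : J → J → ZMod 2, (∀ k l, δ k l = δ l k) → ∀ y, IsLk (pt N δ) y →
    Fm f (c i) w y = 0
  cc : ∀ (s : ZMod 2) (γ : Fin k → ZMod 2), (s ≠ 0 ∨ γ ≠ 0) → V₀ * (Fintype.card U + 1) ≤
    (univ.filter fun x : J => s * u (Sum.inr x) +
      ∑ i, γ i * ∑ l, c i l * f l (Sum.inr x) ≠ 0).card

/-- SLK-LAJ: the law for a random completion. -/
def S_LAJ : Prop := ∀ (k L r : ℕ) (j : Fin k → ℕ) (ε : ℝ), 0 < ε → ∃ V₀ : ℕ, ∀ (U J : Type)
  [Fintype U] [Fintype J] [LinearOrder J] (w u : U ⊕ J → ZMod 2) (f : Fin L → U ⊕ J → ZMod 2)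
  (c : Fin k → Fin L → ZMod 2) (N : U ⊕ J → U ⊕ J → ZMod 2), Stg U J w u f c N V₀ →
  |((univ.filter fun σ : ps J → ZMod 2 => CritF (pt N (sx σ)) f c r j).card : ℝ) /
    2 ^ (ps J).card - lawF r j| ≤ ε

/-- SLK-MOM: the moments. -/
def S_MOM : Prop := ∀ (k L r i : ℕ) (j : Fin k → ℕ) (ε : ℝ), 0 < ε → ∃ V₀ : ℕ, ∀ (U J : Type)
  [Fintype U] [Fintype J] [LinearOrder J] (w u : U ⊕ J → ZMod 2) (f : Fin L → U ⊕ J → ZMod 2)
  (c : Fin k → Fin L → ZMod 2) (N : U ⊕ J → U ⊕ J → ZMod 2), Stg U J w u f c N V₀ →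
  |(∑ σ : ps J → ZMod 2, (TnF w f c (pt N (sx σ)) r i j : ℝ)) / 2 ^ (ps J).card -
    2 ^ (r + i) * ∏ x, ((alt r (j x) : ℝ) / 2 ^ (r * (r - 1) / 2))| ≤ ε

/-- SLK-QC: equidistribution of the linear and quadratic forms. -/
def S_QC : Prop := ∀ (n t k L : ℕ) (J : Type) [Fintype J] (U : Type) [Fintype U] (g : U → J → ZMod 2)
  (d : Fin n → U → ZMod 2) (u : J → ZMod 2) (f : Fin L → J → ZMod 2) (c : Fin k → Fin L → ZMod 2)
  (μ : Fin n → ZMod 2) (κ : Fin L → Fin n → ZMod 2)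
  (L1 : Fin n → Fin n → Fin n → J → ZMod 2) (L2 : Fin k → Fin n → Fin n → Fin n → J → ZMod 2)
  (α : Fin n → Fin n → ZMod 2) (β : Fin k → Fin n → Fin n → ZMod 2),
  (∀ b : U → ZMod 2, (∀ k, ∑ v, b v * g v k = 0) → ∀ v, b v = 0) →
  (∀ (s : ZMod 2) (γ : Fin k → ZMod 2), (s ≠ 0 ∨ γ ≠ 0) →
    t ≤ (univ.filter fun x : J => s * u x + ∑ i, γ i * ∑ l, c i l * f l x ≠ 0).card) →
  |((univ.filter fun y : Fin n → J → ZMod 2 => (∀ a v, ∑ k, g v k * y a k = d a v) ∧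
      (∀ a b, a < b → (μ a + ∑ k, u k * y a k) * (μ b + ∑ k, u k * y b k) +
        ∑ k, u k * y a k * y b k + ∑ x, ∑ k, L1 a b x k * y x k = α a b) ∧
      (∀ i a b, a < b → ∑ l, c i l * ((κ l a + ∑ k, f l k * y a k) * (κ l b + ∑ k, f l k * y b k) +
        ∑ k, f l k * y a k * y b k) + ∑ x, ∑ k, L2 i a b x k * y x k = β i a b)).card : ℝ) -
    2 ^ (n * Fintype.card J) / (2 ^ (n * Fintype.card U) * 2 ^ ((k + 1) * (n * (n - 1) / 2)))| ≤
  2 ^ (n * Fintype.card J) * 2 ^ ((L + 1) * n) / 2 ^ t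

/-- SLK-CNT: the number of the compatible tuples with given Gram matrices. -/
def S_CNT : Prop := ∀ (n k L : ℕ) (ε : ℝ), 0 < ε → ∃ V₀ : ℕ, ∀ (U J : Type) [Fintype U] [Fintype J]
  [LinearOrder J] (w u : U ⊕ J → ZMod 2) (f : Fin L → U ⊕ J → ZMod 2)
  (c : Fin k → Fin L → ZMod 2) (N : U ⊕ J → U ⊕ J → ZMod 2), Stg U J w u f c N V₀ →
  ∀ β : Fin k → Fin n → Fin n → ZMod 2,
  |((univ.filter fun y : Fin n → U ⊕ J → ZMod 2 => (∀ a, Ueq N (y a)) ∧ (∀ a b, Cpt N (y a) (y b)) ∧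
      ∀ i a b, a < b → Fm f (c i) (y a) (y b) = β i a b).card : ℝ) -
    2 ^ (n * Fintype.card J) / 2 ^ ((k + 1) * (n * (n - 1) / 2))| ≤ ε * 2 ^ (n * Fintype.card J)

/-- SLK-REL: as `S_REL`. -/
def S_REL : Prop := ∀ (k L : ℕ) (U J : Type) [Fintype U] [Fintype J]
  [LinearOrder J] (w u : U ⊕ J → ZMod 2) (f : Fin L → U ⊕ J → ZMod 2)
  (c : Fin k → Fin L → ZMod 2) (N : U ⊕ J → U ⊕ J → ZMod 2), Stg U J w u f c N 1 →
  (∀ δ : J → J → ZMod 2, (∀ k l, δ k l = δ l k) → w ≠ 0 ∧ IsLk (pt N δ) w ∧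
    (∀ i, RadF (pt N δ) f (c i) w) ∧
    ∀ (n : ℕ) (y : Fin n → U ⊕ J → ZMod 2), (∀ a, IsLk (pt N δ) (y a)) → Ind w y →
      Aff (fun a k => y a (Sum.inr k))) ∧
  (∀ (n : ℕ) (y : Fin n → U ⊕ J → ZMod 2), Srj (fun a k => y a (Sum.inr k)) → Ind w y) ∧
  ∀ (n : ℕ) (y : Fin n → U ⊕ J → ZMod 2),
    (univ.filter fun σ : ps J → ZMod 2 => ∀ a, IsLk (pt N (sx σ)) (y a)).card =
      if ∀ a, Ueq N (y a) then Sol (fun a k => y a (Sum.inr k)) (fun a k => hh N (y a) k) else 0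

/-- the law of the pair (4-rank, Selmer ranks) -/
noncomputable def plF {k : ℕ} (a : ℕ × (Fin k → ℕ)) : ℝ :=
  if ∀ i, a.1 ≤ a.2 i then lawF a.1 (fun i => a.2 i - a.1) else 0

/-- SLK-MASS: the law is a probability law. -/
def S_MASS : Prop := ∀ k : ℕ, (∀ (r : ℕ) (j : Fin k → ℕ), 0 ≤ lawF r j ∧ lawF r j ≤ 1) ∧
  HasSum (plF (k := k)) 1

/-- SLK-SCH: from the densities of the points to the densities of all the sets. -/
def S_SCH : Prop := ∀ (α : Type) [Countable α] (F : ℕ → Prop) (J : α → ℕ → Prop) (p : α → ℝ),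
  (∀ n, F n → ∃! a, J a n) → (∀ a, 0 ≤ p a) → HasSum p 1 →
  (∀ a, Tendsto (fun X : ℕ => (((Icc 1 X).filter fun n => F n ∧ J a n).card : ℝ) /
    (((Icc 1 X).filter fun n => F n).card : ℝ)) atTop (𝓝 (p a))) →
  ∀ A : Set α, Tendsto (fun X : ℕ => (((Icc 1 X).filter fun n => F n ∧
    ∃ a ∈ A, J a n).card : ℝ) / (((Icc 1 X).filter fun n => F n).card : ℝ)) atTop
    (𝓝 (∑' a : A, p a.1))

/-- the linear system for the first coordinate -/
def RwF {V : Type} [Fintype V] (N : V → V → ZMod 2) (Λ : Finset ℕ) (f : ℕ → V → ZMod 2)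
    (x y : V → ZMod 2) : Prop :=
  ∀ p, ∑ q, (x q + x p) * N p q = ∑ l ∈ Λ, f l p * (y p + ∑ q, f l q * y q)

/-- SLK-LIN: the number of the solutions of the two systems. -/
def S_LIN : Prop := ∀ (V : Type) [Fintype V] (N : V → V → ZMod 2) (Λ : Finset ℕ)
  (f : ℕ → V → ZMod 2),
  Nat.card {z : (V → ZMod 2) × (V → ZMod 2) // IsLk N z.2 ∧ RwF N Λ f z.1 z.2} =
    Nat.card {y : V → ZMod 2 // IsLk N y} *
      Nat.card {y : V → ZMod 2 // IsLk N y ∧ ∀ z, IsLk N z → ∑ l ∈ Λ, Bf (f l) y z = 0}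

end Pool.Agent.N637.SLK
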