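import Pool.Agent.N637.SLK.Ari
import Pool.Agent.N637.SLX.Rad
import Pool.Agent.N637.SLX.Par
import Pool.Agent.N637.SLX.Asm

/-!
# Project SLK: the class of `m` is in the radical; orders
-/

set_option autoImplicit false
set_option linter.all false

open scoped Classical

namespace Pool.Agent.N637.SLK

open Finset Module
open Pool.Agent.N916.GB (Po Vt sy z2 z2_add_self z2_sq nr_recip sum_uu)
open Pool.Agent.Y703.CQ (nr)
open Pool.Agent.N973.ND (uu)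
open Pool.Agent.N637.SLX (NS IsLk Bf wv uv rec_sy sum_vt lkS bfL mem_lkS card_sub bf_self nc)
open Pool.Agent.Y212.RZ (rad mem_rad even_rad)

lemma sum_uv {t : Bool} {r s : ZMod 2} {S : Finset ℕ} {m : ℤ} (h : TyG t r s S m) :
    ∑ p ∈ Vt t S, uv s p = 1 := by
  rw [sum_vt h.po]
  have e : ∑ p ∈ S, uv s p = ∑ p ∈ S, uu p :=
    Finset.sum_congr rfl fun p hp => if_neg (h.po p hp).2
  have h4 := sum_uu S h.po
  rw [e]
  have e2 : uv s 2 = s := if_pos rfl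
  rcases h.ty with ⟨rfl, rfl, hm, hm4⟩ | ⟨rfl, rfl, rfl, hm, hm4⟩ | ⟨rfl, rfl, rfl, hm, hm4⟩ |
    ⟨rfl, rfl, rfl, hm, hm4⟩
  · rw [if_neg (by decide), zero_add]
    rcases z2 (∑ p ∈ S, uu p) with h0 | h0
    · rw [if_pos h0] at h4
      omega
    · exact h0
  · rw [if_pos rfl, e2]
    rcases z2 (∑ p ∈ S, uu p) with h0 | h0
    · rw [h0, add_zero]
    · rw [h0, if_neg (by decide)] at h4
      omega
  · rw [if_pos rfl, e2]
    rcases z2 (∑ p ∈ S, uu p) with h0 | h0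
    · rw [h0, add_zero]
    · rw [h0, if_neg (by decide)] at h4
      omega
  · rw [if_pos rfl, e2]
    rcases z2 (∑ p ∈ S, uu p) with h0 | h0
    · rw [if_pos h0] at h4
      omega
    · rw [h0, zero_add]

theorem lk_w {t : Bool} {r s : ZMod 2} {S : Finset ℕ} {m : ℤ} (h : TyG t r s S m) :
    IsLk (NS t r s S) fun p => wv r p.1 := by
  intro p
  have h2 : ∀ x : ZMod 2, x + x = 0 := z2_add_self
  have e1 : ∀ q : {x : ℕ // x ∈ Vt t S}, wv r q.1 * NS t r s S q p + wv r p.1 * NS t r s S p q =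
      uv s p.1 * uv s q.1 + if q = p then uv s p.1 else 0 := by
    intro q
    by_cases hqp : q = p
    · subst hqp
      rw [if_pos rfl, h2]
      rcases z2 (uv s q.1) with h0 | h0 <;> rw [h0] <;> decide
    · rw [if_neg hqp, add_zero, add_comm]
      exact rec_sy h.po p.2 q.2 fun h' => hqp (Subtype.ext h'.symm)
  show ∑ q : {x : ℕ // x ∈ Vt t S}, (wv r q.1 * NS t r s S q p + wv r p.1 * NS t r s S p q) = 0
  rw [Finset.sum_congr rfl fun q _ => e1 q, Finset.sum_add_distrib, ← Finset.mul_sum,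
    Finset.sum_ite_eq' univ p, if_pos (Finset.mem_univ p)]
  have e3 : ∑ q : {x : ℕ // x ∈ Vt t S}, uv s q.1 = 1 := by
    rw [Finset.sum_coe_sort (Vt t S) (uv s)]
    exact sum_uv h
  rw [e3, mul_one, h2]

/-- `nr l n` in terms of the Jacobi symbol -/
lemma nr_eq (l : ℕ) (hl : l.Prime) (n : ℕ) : (nr l n = 1 ↔ jacobiSym n l = -1) ∧
    (¬ l ∣ n → (nr l n = 0 ↔ jacobiSym n l = 1)) := by
  have : Fact l.Prime := ⟨hl⟩
  have e : jacobiSym n l = legendreSym l n := by rw [jacobiSym.legendreSym.to_jacobiSym]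
  rw [e]
  have h1 : legendreSym l (n : ℤ) = -1 ↔ ¬ IsSquare ((n : ℤ) : ZMod l) := by
    rw [legendreSym.eq_neg_one_iff]
  have e2 : (((n : ℤ) : ZMod l)) = ((n : ℕ) : ZMod l) := by push_cast; rfl
  rw [e2] at h1
  unfold Pool.Agent.Y703.CQ.nr
  refine ⟨?_, ?_⟩
  · rw [h1]
    by_cases h : IsSquare ((n : ℕ) : ZMod l)
    · rw [if_pos h]
      exact ⟨fun h' => absurd h' (by decide), fun h' => absurd h h'⟩
    · rw [if_neg h]
      exact ⟨fun _ => h, fun _ => rfl⟩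
  · intro hd
    have h0 : ((n : ℤ) : ZMod l) ≠ 0 := by
      rw [e2, Ne, ZMod.natCast_eq_zero_iff]
      exact hd
    rw [legendreSym.eq_one_iff l h0, e2]
    by_cases h : IsSquare ((n : ℕ) : ZMod l)
    · rw [if_pos h]
      exact ⟨fun _ => h, fun _ => rfl⟩
    · rw [if_neg h]
      exact ⟨fun h' => absurd h' (by decide), fun h' => absurd h' h⟩

/-- additivity of the symbols -/
lemma nr_mul (l : ℕ) (hl : l.Prime) {x y : ℕ} (hx : ¬ l ∣ x) (hy : ¬ l ∣ y) :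
    nr l (x * y) = nr l x + nr l y := by
  have hxy : ¬ l ∣ x * y := fun h => (hl.dvd_mul.1 h).elim hx hy
  have e : jacobiSym ((x * y : ℕ) : ℤ) l = jacobiSym x l * jacobiSym y l := by
    push_cast
    exact jacobiSym.mul_left _ _ _
  obtain ⟨a1, a2⟩ := nr_eq l hl x
  obtain ⟨b1, b2⟩ := nr_eq l hl y
  obtain ⟨c1, c2⟩ := nr_eq l hl (x * y)
  have a2' := a2 hx
  have b2' := b2 hy
  have c2' := c2 hxy
  rcases z2 (nr l x) with h1 | h1 <;> rcases z2 (nr l y) with h2 | h2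
  · rw [h1, h2, add_zero, c2', e, a2'.1 h1, b2'.1 h2]
    norm_num
  · rw [h1, h2, zero_add, c1, e, a2'.1 h1, b1.1 h2]
    norm_num
  · rw [h1, h2, add_zero, c1, e, a1.1 h1, b2'.1 h2]
    norm_num
  · rw [h1, h2]
    have : (1 : ZMod 2) + 1 = 0 := by decide
    rw [this, c2', e, a1.1 h1, b1.1 h2]
    norm_num

lemma nr_prod (l : ℕ) (hl : l.Prime) (S : Finset ℕ) (hS : ∀ p ∈ S, ¬ l ∣ p) :
    ¬ l ∣ ∏ p ∈ S, p ∧ ∑ p ∈ S, nr l p = nr l (∏ p ∈ S, p) := by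
  induction S using Finset.induction_on with
  | empty =>
    rw [prod_empty, sum_empty]
    refine ⟨fun h => hl.one_lt.ne' (Nat.dvd_one.1 h), ?_⟩
    have : IsSquare (((1 : ℕ)) : ZMod l) := ⟨1, by push_cast; ring⟩
    unfold Pool.Agent.Y703.CQ.nr
    rw [if_pos this]
  | insert a S ha ih =>
    obtain ⟨i1, i2⟩ := ih fun p hp => hS p (mem_insert_of_mem hp)
    have ha' := hS a (mem_insert_self a S)
    rw [prod_insert ha, sum_insert ha, i2, nr_mul l hl ha' i1]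
    exact ⟨fun h => (hl.dvd_mul.1 h).elim ha' i1, rfl⟩

/-- the labels of the curve: facts -/
lemma mem_lb {a c : ℤ} {l : ℕ} (h : l ∈ lb a c) : l.Prime ∧ (l : ℤ) ∣ c ^ 2 - a ^ 2 := by
  unfold lb at h
  obtain ⟨h1, -⟩ := Finset.mem_filter.1 h
  obtain ⟨h2, h3, -⟩ := Nat.mem_primeFactors.1 h1
  exact ⟨h2, Int.natCast_dvd.2 h3⟩

lemma lb_ne_two {a c : ℤ} (hC : Cv a c) {l : ℕ} (h : l ∈ lb a c) : l ≠ 2 := by
  rintro rfl
  obtain ⟨-, h2⟩ := mem_lb h
  have h1 : (2 : ℤ) ∣ c ^ 2 - a ^ 2 := by exact_mod_cast h2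
  obtain ⟨u, hu⟩ : ∃ u, a = 2 * u + 1 := ⟨a / 2, by have := hC.ha; omega⟩
  obtain ⟨v, hv⟩ : ∃ v, c = 2 * v := ⟨c / 2, by have := hC.hc; omega⟩
  rw [hu, hv] at h1
  have e : (2 * v) ^ 2 - (2 * u + 1) ^ 2 = 2 * (2 * v ^ 2 - 2 * u ^ 2 - 2 * u) - 1 := by ring
  rw [e] at h1
  omega

lemma not_dvd_m {m : ℤ} {l : ℕ} (hp : l.Prime) (hj : jacobiSym (-m) l = -1) : ¬ (l : ℤ) ∣ m := by
  intro h0
  have : Fact l.Prime := ⟨hp⟩
  rw [← jacobiSym.legendreSym.to_jacobiSym, legendreSym.eq_neg_one_iff] at hj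
  refine hj ⟨0, ?_⟩
  rw [mul_zero, ZMod.intCast_zmod_eq_zero_iff_dvd]
  exact (dvd_neg).2 h0

/-- the sum of the labels over the support of `m` is one -/
lemma sum_w {t : Bool} {r s : ZMod 2} {S : Finset ℕ} {m a c : ℤ} (h : TyG t r s S m) (hC : Cv a c)
    (hL : Lm a c m) {l : ℕ} (hl : l ∈ lb a c) :
    ∑ p : {x : ℕ // x ∈ Vt t S}, nr l p.1 * wv r p.1 = 1 := by
  obtain ⟨hp, hd⟩ := mem_lb hl
  have hl2 := lb_ne_two hC hl
  have hj := hL.bb l hp hd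
  have hnd := not_dvd_m hp hj
  have hn2 : ¬ l ∣ 2 := fun h0 => hl2 ((Nat.prime_dvd_prime_iff_eq hp Nat.prime_two).1 h0)
  have e0 : ∑ p : {x : ℕ // x ∈ Vt t S}, nr l p.1 * wv r p.1 = ∑ p ∈ Vt t S, nr l p * wv r p :=
    Finset.sum_coe_sort (Vt t S) (fun p => nr l p * wv r p)
  have e1 : ∑ p ∈ S, nr l p * wv r p = ∑ p ∈ S, nr l p :=
    Finset.sum_congr rfl fun p hp' => by
      have : wv r p = 1 := if_neg (h.po p hp').2
      rw [this, mul_one]
  have e2 : wv r 2 = r := if_pos rfl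
  have hS : ∀ p ∈ S, ¬ l ∣ p := by
    intro p hp' hlp
    have h1 : p ∣ ∏ q ∈ S, q := Finset.dvd_prod_of_mem _ hp'
    have h2 : (l : ℤ) ∣ ((∏ q ∈ S, q : ℕ) : ℤ) := Int.natCast_dvd_natCast.2 (hlp.trans h1)
    rcases h.ty with ⟨-, -, hm, -⟩ | ⟨-, -, -, hm, -⟩ | ⟨-, -, -, hm, -⟩ | ⟨-, -, -, hm, -⟩
    · exact hnd (by rw [hm]; exact (dvd_neg).2 h2)
    · exact hnd (by rw [hm]; exact (dvd_neg).2 h2)
    · exact hnd (by rw [hm]; exact (dvd_neg).2 (h2.mul_left 2))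
    · exact hnd (by rw [hm]; exact (dvd_neg).2 (h2.mul_left 2))
  obtain ⟨p1, p2⟩ := nr_prod l hp S hS
  rw [e0, sum_vt h.po, e1, p2, e2]
  rcases h.ty with ⟨rfl, -, hm, -⟩ | ⟨rfl, rfl, -, hm, -⟩ | ⟨rfl, rfl, -, hm, -⟩ | ⟨rfl, rfl, -, hm, -⟩
  · rw [if_neg (by decide), zero_add, (nr_eq l hp _).1]
    rw [hm, neg_neg] at hj
    exact hj
  · rw [if_pos rfl, mul_zero, zero_add, (nr_eq l hp _).1]
    rw [hm, neg_neg] at hj
    exact hj
  · rw [if_pos rfl, mul_one, ← nr_mul l hp hn2 p1, (nr_eq l hp _).1]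
    rw [hm, neg_neg] at hj
    push_cast at hj ⊢
    exact hj
  · rw [if_pos rfl, mul_one, ← nr_mul l hp hn2 p1, (nr_eq l hp _).1]
    rw [hm, neg_neg] at hj
    push_cast at hj ⊢
    exact hj

/-- the class of `m` is in the radical of the form; `two`: the labels at `2` cancel -/
theorem rad_w {t : Bool} {r s : ZMod 2} {S : Finset ℕ} {m a c : ℤ} (h : TyG t r s S m) (hC : Cv a c)
    (hL : Lm a c m) (two : ∑ l ∈ lb a c, nr l 2 = 0) (z : {x : ℕ // x ∈ Vt t S} → ZMod 2) :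
    ∑ l ∈ lb a c, Bf (fun p : {x : ℕ // x ∈ Vt t S} => nr l p.1) (fun p => wv r p.1) z = 0 := by
  have e1 : ∀ l ∈ lb a c, Bf (fun p : {x : ℕ // x ∈ Vt t S} => nr l p.1) (fun p => wv r p.1) z =
      ∑ p : {x : ℕ // x ∈ Vt t S}, nr l p.1 * ((1 + wv r p.1) * z p) := by
    intro l hl
    unfold Pool.Agent.N637.SLX.Bf
    rw [sum_w h hC hL hl, one_mul, ← Finset.sum_add_distrib]
    exact Finset.sum_congr rfl fun p _ => by ring
  rw [Finset.sum_congr rfl e1, Finset.sum_comm]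
  refine Finset.sum_eq_zero fun p _ => ?_
  rw [← Finset.sum_mul]
  by_cases hp : p.1 = 2
  · rw [hp, two, zero_mul]
  · have : wv r p.1 = 1 := if_neg hp
    have h2 : (1 : ZMod 2) + 1 = 0 := by decide
    rw [this, h2, zero_mul, mul_zero]

theorem w_ne {t : Bool} {r s : ZMod 2} {S : Finset ℕ} {m : ℤ} (h : TyG t r s S m) (hm : m ≠ -1) :
    (fun p : {x : ℕ // x ∈ Vt t S} => wv r p.1) ≠ 0 := by
  intro h0
  by_cases hS : S = ∅
  · subst hS
    rcases h.ty with ⟨-, -, hm', -⟩ | ⟨-, -, -, hm', -⟩ | ⟨rfl, rfl, -, hm', -⟩ | ⟨rfl, rfl, -, hm', -⟩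
    · rw [Finset.prod_empty] at hm'
      exact hm (by rw [hm']; norm_num)
    · rw [Finset.prod_empty] at hm'
      exact hm (by rw [hm']; norm_num)
    · have hv : 2 ∈ Vt true ∅ := by
        unfold Vt
        rw [if_pos rfl]
        exact Finset.mem_insert_self 2 _
      have h1 := congrFun h0 ⟨2, hv⟩
      have h2 : wv 1 2 = 1 := if_pos rfl
      have h3 : wv 1 2 = 0 := h1
      rw [h2] at h3
      exact one_ne_zero h3
    · have hv : 2 ∈ Vt true ∅ := by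
        unfold Vt
        rw [if_pos rfl]
        exact Finset.mem_insert_self 2 _
      have h1 := congrFun h0 ⟨2, hv⟩
      have h2 : wv 1 2 = 1 := if_pos rfl
      have h3 : wv 1 2 = 0 := h1
      rw [h2] at h3
      exact one_ne_zero h3
  · obtain ⟨p, hp⟩ := Finset.nonempty_iff_ne_empty.2 hS
    have hpv : p ∈ Vt t S := by
      unfold Vt
      split_ifs
      · exact Finset.mem_insert_of_mem hp
      · exact hp
    have h1 := congrFun h0 ⟨p, hpv⟩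
    have h2 : wv r p = 1 := if_neg (h.po p hp).2
    have h3 : wv r p = 0 := h1
    rw [h2] at h3
    exact one_ne_zero h3

section

variable {V : Type} [Fintype V]

/-- the sum of the forms -/
noncomputable def bfS (Λ : Finset ℕ) (f : ℕ → V → ZMod 2) :
    (V → ZMod 2) →ₗ[ZMod 2] (V → ZMod 2) →ₗ[ZMod 2] ZMod 2 := ∑ l ∈ Λ, bfL (f l)

lemma bfS_apply (Λ : Finset ℕ) (f : ℕ → V → ZMod 2) (y z : V → ZMod 2) :
    bfS Λ f y z = ∑ l ∈ Λ, Bf (f l) y z := by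
  unfold bfS
  rw [LinearMap.sum_apply, LinearMap.sum_apply]
  rfl

/-- **The orders of the left kernel and of the radical.** -/
theorem crit_ex (N : V → V → ZMod 2) (w : V → ZMod 2) (hw : w ≠ 0) (hl : IsLk N w) :
    ∃ a : ℕ, Nat.card {y : V → ZMod 2 // IsLk N y} = 2 ^ (a + 1) ∧
      ∀ (Λ : Finset ℕ) (f : ℕ → V → ZMod 2), (∀ z, IsLk N z → ∑ l ∈ Λ, Bf (f l) w z = 0) →
      ∃ b : ℕ, Nat.card {y : V → ZMod 2 // IsLk N y ∧
        ∀ z, IsLk N z → ∑ l ∈ Λ, Bf (f l) y z = 0} = 2 ^ (b + 1) ∧ b ≤ a ∧ Even (a + b) := by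
  have h1 : Nat.card {y : V → ZMod 2 // IsLk N y} = 2 ^ finrank (ZMod 2) (lkS N) := by
    rw [← card_sub, nc]
    rfl
  have h5 : 0 < finrank (ZMod 2) (lkS N) := by
    rw [Module.finrank_pos_iff_exists_ne_zero]
    exact ⟨⟨w, hl⟩, fun h => hw (congrArg Subtype.val h)⟩
  obtain ⟨a, ha⟩ : ∃ a, finrank (ZMod 2) (lkS N) = a + 1 :=
    ⟨finrank (ZMod 2) (lkS N) - 1, by omega⟩
  refine ⟨a, by rw [h1, ha], fun Λ f hr => ?_⟩
  have h2 : Nat.card {y : V → ZMod 2 // IsLk N y ∧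
      ∀ z, IsLk N z → ∑ l ∈ Λ, Bf (f l) y z = 0} =
      2 ^ finrank (ZMod 2) (rad (bfS Λ f) (lkS N)) := by
    rw [← card_sub, nc]
    refine Nat.card_congr (Equiv.subtypeEquivRight fun y => ?_)
    rw [mem_rad]
    refine and_congr_right fun _ => ?_
    constructor
    · exact fun h z hz => by rw [bfS_apply]; exact h z hz
    · exact fun h z hz => by rw [← bfS_apply]; exact h z hz
  have h3 : finrank (ZMod 2) (rad (bfS Λ f) (lkS N)) ≤ finrank (ZMod 2) (lkS N) :=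
    Submodule.finrank_mono fun y hy => hy.1
  have h4 : Even (finrank (ZMod 2) (lkS N) + finrank (ZMod 2) (rad (bfS Λ f) (lkS N))) :=
    even_rad (bfS Λ f) _ (lkS N) rfl fun p _ => by
      rw [bfS_apply]
      exact Finset.sum_eq_zero fun l _ => bf_self (f l) p
  have h6 : 0 < finrank (ZMod 2) (rad (bfS Λ f) (lkS N)) := by
    rw [Module.finrank_pos_iff_exists_ne_zero]
    exact ⟨⟨w, mem_rad.2 ⟨hl, fun z hz => by rw [bfS_apply]; exact hr z hz⟩⟩,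
      fun h => hw (congrArg Subtype.val h)⟩
  obtain ⟨b, hb⟩ : ∃ b, finrank (ZMod 2) (rad (bfS Λ f) (lkS N)) = b + 1 :=
    ⟨finrank (ZMod 2) (rad (bfS Λ f) (lkS N)) - 1, by omega⟩
  rw [ha, hb] at h3 h4
  refine ⟨b, by rw [h2, hb], by omega, ?_⟩
  obtain ⟨k, hk⟩ := h4
  exact ⟨k - 1, by omega⟩

end

end Pool.Agent.N637.SLK
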